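import Mathlib
import Pool.Agent.MP_ed4d7b_nt.k2.All

set_option autoImplicit false

namespace Pool.Agent.Results.MP_ed4d7b_nt.AllExponents

/-- The number of partitions of `n`. -/
def p (n : ℕ) : ℕ := Fintype.card (Nat.Partition n)

/-- The distance from `p n` to the nearest `k`-th power of an integer. -/
noncomputable def Delta (k n : ℕ) : ℕ := sInf {j : ℕ | ∃ m : ℤ, j = ((p n : ℤ) - m ^ k).natAbs}

/-- Outside a set with a power saving, `p n` is as far from all perfect powers as size allows. -/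
theorem result (ε : ℝ) (hε : 0 < ε) :
    ∃ η : ℝ, 0 < η ∧ ∀ d : ℝ, ∃ C : ℝ, ∀ X : ℕ, 1 ≤ X →
      (Set.ncard {n : ℕ | n ≤ X ∧ ∃ k : ℕ, 2 ≤ k ∧
        (Delta k n : ℝ) ≤ d * (p n : ℝ) ^ (1 - 1 / (k : ℝ) - ε)} : ℝ) ≤ C * (X : ℝ) ^ (1 - η) := by
  classical
  obtain ⟨η, hη, h⟩ := Pool.Agent.MP_ed4d7b_nt.K2.mainAll ε hε
  refine ⟨η, hη, fun d => ?_⟩
  obtain ⟨C, h⟩ := h d
  refine ⟨C, fun X hX => le_trans ?_ (h X hX)⟩
  rw [← Set.ncard_coe_finset]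
  refine Nat.cast_le.2 (Set.ncard_le_ncard (fun n ⟨h1, k, hk, h2⟩ => ?_) (Finset.finite_toSet _))
  obtain ⟨m, hm⟩ : Delta k n ∈ {j : ℕ | ∃ m : ℤ, j = ((p n : ℤ) - m ^ k).natAbs} :=
    Nat.sInf_mem ⟨_, 0, rfl⟩
  simp only [Finset.coe_filter, Finset.mem_range, Nat.lt_succ_iff, Set.mem_ofPred_eq]
  refine ⟨h1, k, hk, m, le_trans (le_of_eq ?_) h2⟩
  rw [hm, Nat.cast_natAbs]
  push_cast
  rfl

end Pool.Agent.Results.MP_ed4d7b_nt.AllExponents
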