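import Mathlib
import Pool.Agent.MP_ed4d7b_nt.Final

set_option autoImplicit false

namespace Pool.Agent.Results.MP_ed4d7b_nt.RarelyNear

/-- The number of partitions of `n`. -/
def p (n : ℕ) : ℕ := Fintype.card (Nat.Partition n)

/-- All but `C X ^ (1 / 2 + ε)` of the `n ≤ X` have `p n` far from every `k`-th power, `k ≥ K`. -/
theorem result (ε θ : ℝ) (hε : 0 < ε) (hθ : θ < 1) :
    ∃ K : ℕ, ∀ d : ℝ, ∃ C : ℝ, ∀ X : ℕ, 1 ≤ X →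
      (Set.ncard {n : ℕ | n ≤ X ∧ ∃ k : ℕ, K ≤ k ∧ ∃ m : ℤ,
        |(p n : ℝ) - (m : ℝ) ^ k| ≤ d * (p n : ℝ) ^ θ} : ℝ) ≤ C * (X : ℝ) ^ (1 / 2 + ε) := by
  classical
  obtain ⟨K, h⟩ := Pool.Agent.MP_ed4d7b_nt.final hε hθ
  refine ⟨K, fun d => ?_⟩
  obtain ⟨C, h⟩ := h d
  refine ⟨C, fun X hX => le_trans (le_of_eq ?_) (h X hX)⟩
  rw [← Set.ncard_coe_finset]
  congr 2
  ext n
  simp only [Set.mem_ofPred_eq, Finset.coe_filter, Finset.mem_range, Nat.lt_succ_iff]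
  rfl

end Pool.Agent.Results.MP_ed4d7b_nt.RarelyNear
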